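import Pool.Agent.Results.MP_3faef8_co.DisjointUnion

set_option autoImplicit false

/-!
# The exact value for all disjoint unions of triangles, hexagons and complete graphs on four vertices
-/

namespace Pool.Agent.Results.MP_3faef8_co.ExactValue

open Finset
open Pool.Agent.Results.MP_3faef8_co.DisjointUnion (IsNice vertexSum nb HasEquitableProperLabelling
  local3 local4)

/-! ### disjoint unions -/

/-- the disjoint union of the graphs `H i` -/
def disj {ι : Type} {n : ι → ℕ} (H : ∀ i, SimpleGraph (Fin (n i))) : SimpleGraph (Σ i, Fin (n i)) where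
  Adj p q := ∃ (i : ι) (x y : Fin (n i)), p = ⟨i, x⟩ ∧ q = ⟨i, y⟩ ∧ (H i).Adj x y
  symm := ⟨by
    rintro p q ⟨i, x, y, hp, hq, h⟩
    exact ⟨i, y, x, hq, hp, h.symm⟩⟩
  loopless := ⟨by
    rintro p ⟨i, x, y, hp, hq, h⟩
    rw [hp] at hq
    have := (Sigma.mk.inj_iff.1 hq).2
    exact h.ne (eq_of_heq this)⟩

section gen

variable {ι : Type} {n : ι → ℕ} (H : ∀ i, SimpleGraph (Fin (n i)))

theorem adj_mk (i : ι) (x y : Fin (n i)) : (disj H).Adj ⟨i, x⟩ ⟨i, y⟩ ↔ (H i).Adj x y := by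
  constructor
  · rintro ⟨j, x', y', hp, hq, h⟩
    obtain ⟨rfl, hx⟩ := Sigma.mk.inj_iff.1 hp
    obtain ⟨-, hy⟩ := Sigma.mk.inj_iff.1 hq
    rw [eq_of_heq hx, eq_of_heq hy]
    exact h
  · intro h
    exact ⟨i, x, y, rfl, rfl, h⟩

/-- the inclusion of the component `i` -/
abbrev inc (n : ι → ℕ) (i : ι) : Fin (n i) → (Σ i, Fin (n i)) := fun x => ⟨i, x⟩

/-- the labelling of the component `i` -/
def loc (l : Sym2 (Σ i, Fin (n i)) → ℕ) (i : ι) : Sym2 (Fin (n i)) → ℕ :=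
  fun e => l (e.map (inc n i))

theorem vertexSum_mk [Fintype ι] (l : Sym2 (Σ i, Fin (n i)) → ℕ) (i : ι) (x : Fin (n i)) :
    vertexSum (disj H) l ⟨i, x⟩ = vertexSum (H i) (loc l i) x := by
  classical
  unfold vertexSum
  symm
  apply Finset.sum_bij (fun u _ => (⟨i, u⟩ : Σ i, Fin (n i)))
  · intro u hu
    rw [Finset.mem_filter] at hu ⊢
    exact ⟨Finset.mem_univ _, (adj_mk H i x u).2 hu.2⟩
  · intro u _ v _ huv
    exact eq_of_heq (Sigma.mk.inj_iff.1 huv).2
  · rintro q hq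
    rw [Finset.mem_filter] at hq
    obtain ⟨j, x', y', hp, hq', h⟩ := hq.2
    obtain ⟨rfl, hx⟩ := Sigma.mk.inj_iff.1 hp
    refine ⟨y', ?_, hq'.symm⟩
    rw [Finset.mem_filter]
    rw [eq_of_heq hx]
    exact ⟨Finset.mem_univ _, h⟩
  · intro u _
    rfl

omit H in
theorem map_inj' {i j : ι} (e : Sym2 (Fin (n i))) (f : Sym2 (Fin (n j)))
    (h : e.map (inc n i) = f.map (inc n j)) :
    (⟨i, e⟩ : Σ i, Sym2 (Fin (n i))) = ⟨j, f⟩ := by
  induction e with
  | _ a b =>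
    induction f with
    | _ c d =>
      rw [Sym2.map_mk, Sym2.map_mk, Sym2.eq_iff] at h
      rcases h with ⟨h1, h2⟩ | ⟨h1, h2⟩
      · obtain ⟨rfl, h3⟩ := Sigma.mk.inj_iff.1 h1
        have h4 := (Sigma.mk.inj_iff.1 h2).2
        rw [eq_of_heq h3, eq_of_heq h4]
      · obtain ⟨rfl, h3⟩ := Sigma.mk.inj_iff.1 h1
        have h4 := (Sigma.mk.inj_iff.1 h2).2
        rw [eq_of_heq h3, eq_of_heq h4, Sym2.eq_swap]

theorem mem_edge (i : ι) (e : Sym2 (Fin (n i))) :
    e.map (inc n i) ∈ (disj H).edgeSet ↔ e ∈ (H i).edgeSet := by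
  induction e with
  | _ a b =>
    rw [Sym2.map_mk, SimpleGraph.mem_edgeSet, SimpleGraph.mem_edgeSet, adj_mk]

theorem exists_of_edge (e : Sym2 (Σ i, Fin (n i))) (he : e ∈ (disj H).edgeSet) :
    ∃ (i : ι) (f : Sym2 (Fin (n i))), f ∈ (H i).edgeSet ∧ e = f.map (inc n i) := by
  induction e with
  | _ p q =>
    rw [SimpleGraph.mem_edgeSet] at he
    obtain ⟨i, x, y, rfl, rfl, h⟩ := he
    exact ⟨i, s(x, y), h, rfl⟩

theorem nb_disj [Fintype ι] (l : Sym2 (Σ i, Fin (n i)) → ℕ) (c : ℕ) :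
    nb (disj H) l c = ∑ i, nb (H i) (loc l i) c := by
  classical
  unfold nb
  have h1 : ∀ i, Set.ncard {e : Sym2 (Fin (n i)) | e ∈ (H i).edgeSet ∧ loc l i e = c} =
      Nat.card {e : Sym2 (Fin (n i)) // e ∈ (H i).edgeSet ∧ loc l i e = c} := fun i => rfl
  rw [Finset.sum_congr rfl (fun i _ => h1 i), ← Nat.card_sigma]
  apply Nat.card_congr
  symm
  apply Equiv.ofBijective (fun p : (Σ i, {e : Sym2 (Fin (n i)) // e ∈ (H i).edgeSet ∧ loc l i e = c}) =>
    (⟨p.2.1.map (inc n p.1), (mem_edge H p.1 p.2.1).2 p.2.2.1, p.2.2.2⟩ :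
      {e : Sym2 (Σ i, Fin (n i)) | e ∈ (disj H).edgeSet ∧ l e = c}))
  constructor
  · rintro ⟨i, e, he⟩ ⟨j, f, hf⟩ h
    have h' := congrArg Subtype.val h
    simp only at h'
    have h2 := map_inj' e f h'
    obtain ⟨rfl, h3⟩ := Sigma.mk.inj_iff.1 h2
    have h4 := eq_of_heq h3
    subst h4
    rfl
  · rintro ⟨e, he, hl⟩
    obtain ⟨i, f, hf, rfl⟩ := exists_of_edge H e he
    exact ⟨⟨i, f, hf, hl⟩, rfl⟩

open Classical in
/-- the labelling with the given labellings of the components -/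
noncomputable def glue (g : ∀ i, Sym2 (Fin (n i)) → ℕ) (e : Sym2 (Σ i, Fin (n i))) : ℕ :=
  if h : ∃ p : (Σ i, Sym2 (Fin (n i))), e = p.2.map (inc n p.1) then g h.choose.1 h.choose.2 else 0

theorem loc_glue (g : ∀ i, Sym2 (Fin (n i)) → ℕ) (i : ι) : loc (glue g) i = g i := by
  funext e
  unfold loc glue
  have h : ∃ p : (Σ i, Sym2 (Fin (n i))), e.map (inc n i) = p.2.map (inc n p.1) := ⟨⟨i, e⟩, rfl⟩
  rw [dif_pos h]
  have h2 := map_inj' e h.choose.2 h.choose_spec
  generalize h.choose = q at h2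
  obtain ⟨j, f⟩ := q
  obtain ⟨rfl, h3⟩ := Sigma.mk.inj_iff.1 h2
  rw [eq_of_heq h3]

/-- a proper labelling with the labels `1, …, k` -/
def Prop' {m : ℕ} (G : SimpleGraph (Fin m)) (l : Sym2 (Fin m) → ℕ) (k : ℕ) : Prop :=
  (∀ e ∈ G.edgeSet, 1 ≤ l e ∧ l e ≤ k) ∧ ∀ u v, G.Adj u v → vertexSum G l u ≠ vertexSum G l v

theorem prop_loc [Fintype ι] (l : Sym2 (Σ i, Fin (n i)) → ℕ) (k : ℕ)
    (h1 : ∀ e ∈ (disj H).edgeSet, 1 ≤ l e ∧ l e ≤ k)
    (h2 : ∀ u v, (disj H).Adj u v → vertexSum (disj H) l u ≠ vertexSum (disj H) l v) (i : ι) :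
    Prop' (H i) (loc l i) k := by
  refine ⟨fun e he => h1 _ ((mem_edge H i e).2 he), fun u v huv => ?_⟩
  rw [← vertexSum_mk, ← vertexSum_mk]
  exact h2 _ _ ((adj_mk H i u v).2 huv)

theorem prop_glue [Fintype ι] (g : ∀ i, Sym2 (Fin (n i)) → ℕ) (k : ℕ)
    (hg : ∀ i, Prop' (H i) (g i) k) :
    (∀ e ∈ (disj H).edgeSet, 1 ≤ glue g e ∧ glue g e ≤ k) ∧
    ∀ u v, (disj H).Adj u v → vertexSum (disj H) (glue g) u ≠ vertexSum (disj H) (glue g) v := by
  constructor
  · intro e he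
    obtain ⟨i, f, hf, rfl⟩ := exists_of_edge H e he
    have := (hg i).1 f hf
    rw [← loc_glue g i] at this
    exact this
  · rintro p q ⟨i, x, y, rfl, rfl, h⟩
    rw [vertexSum_mk, vertexSum_mk, loc_glue]
    exact (hg i).2 x y h

end gen

/-! ### the components -/

theorem nb_fin {m : ℕ} (G : SimpleGraph (Fin m)) [DecidableRel G.Adj] (l : Sym2 (Fin m) → ℕ) (c : ℕ) :
    nb G l c = ∑ e ∈ G.edgeFinset, if l e = c then 1 else 0 := by
  unfold nb
  have h : {e | e ∈ G.edgeSet ∧ l e = c} = ↑(G.edgeFinset.filter (fun e => l e = c)) := by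
    ext e
    simp
  rw [h, Set.ncard_coe_finset, Finset.card_filter]

theorem vs_fin {m : ℕ} (G : SimpleGraph (Fin m)) [DecidableRel G.Adj] (l : Sym2 (Fin m) → ℕ)
    (v : Fin m) : vertexSum G l v = ∑ u, if G.Adj v u then l s(v, u) else 0 := by
  unfold vertexSum
  rw [Finset.sum_filter]
  apply Finset.sum_congr rfl
  intro u _
  congr

theorem prop_fin {m : ℕ} (G : SimpleGraph (Fin m)) [DecidableRel G.Adj] (l : Sym2 (Fin m) → ℕ) (k : ℕ)
    (h1 : ∀ e ∈ G.edgeFinset, 1 ≤ l e ∧ l e ≤ k)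
    (h2 : ∀ u v, G.Adj u v → (∑ x, if G.Adj u x then l s(u, x) else 0) ≠
      ∑ x, if G.Adj v x then l s(v, x) else 0) : Prop' G l k := by
  refine ⟨fun e he => h1 e (by simpa using he), fun u v huv => ?_⟩
  rw [vs_fin, vs_fin]
  exact h2 u v huv

/-- the number of vertices of the component of type `t` -/
def size : Fin 3 → ℕ
  | 0 => 3
  | 1 => 6
  | 2 => 4

/-- the component of type `0`, `1`, `2`: the triangle, the hexagon, the complete graph on four vertices -/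
def piece : (t : Fin 3) → SimpleGraph (Fin (size t))
  | 0 => (⊤ : SimpleGraph (Fin 3))
  | 1 => SimpleGraph.cycleGraph 6
  | 2 => (⊤ : SimpleGraph (Fin 4))

/-- a third of the number of edges -/
def w : Fin 3 → ℕ
  | 0 => 1
  | 1 => 2
  | 2 => 2

def lab3 (m : ℕ) : Sym2 (Fin 3) → ℕ := fun e =>
  if e = s(0, 1) then 1 else if e = s(0, 2) then 2 else m

def lab6 (m : ℕ) : Sym2 (Fin 6) → ℕ := fun e =>
  if e = s(0, 1) ∨ e = s(1, 2) then 1 else if e = s(2, 3) ∨ e = s(3, 4) then 2 else m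

def lab4 (a b c d e f : ℕ) : Sym2 (Fin 4) → ℕ := fun x =>
  if x = s(0, 1) then a else if x = s(0, 2) then b else if x = s(0, 3) then c else
  if x = s(1, 2) then d else if x = s(1, 3) then e else f

theorem pos4 (t : Fin 3) : ∃ l : Sym2 (Fin (size t)) → ℕ, Prop' (piece t) l 4 ∧
    nb (piece t) l 1 = w t ∧ nb (piece t) l 2 = w t ∧ nb (piece t) l 3 = 0 ∧
    nb (piece t) l 4 = w t := by
  match t with
  | 0 =>
    refine ⟨lab3 4, prop_fin (⊤ : SimpleGraph (Fin 3)) _ _ (by decide +kernel) (by decide +kernel),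
      ?_, ?_, ?_, ?_⟩
    · exact (nb_fin (⊤ : SimpleGraph (Fin 3)) (lab3 4) 1).trans (by decide +kernel)
    · exact (nb_fin (⊤ : SimpleGraph (Fin 3)) (lab3 4) 2).trans (by decide +kernel)
    · exact (nb_fin (⊤ : SimpleGraph (Fin 3)) (lab3 4) 3).trans (by decide +kernel)
    · exact (nb_fin (⊤ : SimpleGraph (Fin 3)) (lab3 4) 4).trans (by decide +kernel)
  | 1 =>
    refine ⟨lab6 4, prop_fin (SimpleGraph.cycleGraph 6) _ _ (by decide +kernel) (by decide +kernel),
      ?_, ?_, ?_, ?_⟩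
    · exact (nb_fin (SimpleGraph.cycleGraph 6) (lab6 4) 1).trans (by decide +kernel)
    · exact (nb_fin (SimpleGraph.cycleGraph 6) (lab6 4) 2).trans (by decide +kernel)
    · exact (nb_fin (SimpleGraph.cycleGraph 6) (lab6 4) 3).trans (by decide +kernel)
    · exact (nb_fin (SimpleGraph.cycleGraph 6) (lab6 4) 4).trans (by decide +kernel)
  | 2 =>
    refine ⟨lab4 1 1 2 4 2 4, prop_fin (⊤ : SimpleGraph (Fin 4)) _ _ (by decide +kernel)
      (by decide +kernel), ?_, ?_, ?_, ?_⟩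
    · exact (nb_fin (⊤ : SimpleGraph (Fin 4)) (lab4 1 1 2 4 2 4) 1).trans (by decide +kernel)
    · exact (nb_fin (⊤ : SimpleGraph (Fin 4)) (lab4 1 1 2 4 2 4) 2).trans (by decide +kernel)
    · exact (nb_fin (⊤ : SimpleGraph (Fin 4)) (lab4 1 1 2 4 2 4) 3).trans (by decide +kernel)
    · exact (nb_fin (⊤ : SimpleGraph (Fin 4)) (lab4 1 1 2 4 2 4) 4).trans (by decide +kernel)

theorem pos3 (t : Fin 3) (b : Bool) : ∃ l : Sym2 (Fin (size t)) → ℕ, Prop' (piece t) l 3 ∧
    (nb (piece t) l 1 : ℤ) = w t + (if t = 2 then (if b then 1 else -1) else 0) ∧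
    (nb (piece t) l 2 : ℤ) = w t - (if t = 2 then (if b then 1 else -1) else 0) ∧
    nb (piece t) l 3 = w t := by
  match t with
  | 0 =>
    refine ⟨lab3 3, prop_fin (⊤ : SimpleGraph (Fin 3)) _ _ (by decide +kernel) (by decide +kernel),
      ?_, ?_, ?_⟩
    · exact (congrArg Nat.cast (nb_fin (⊤ : SimpleGraph (Fin 3)) (lab3 3) 1)).trans
        (by revert b; decide +kernel)
    · exact (congrArg Nat.cast (nb_fin (⊤ : SimpleGraph (Fin 3)) (lab3 3) 2)).trans
        (by revert b; decide +kernel)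
    · exact (nb_fin (⊤ : SimpleGraph (Fin 3)) (lab3 3) 3).trans (by decide +kernel)
  | 1 =>
    refine ⟨lab6 3, prop_fin (SimpleGraph.cycleGraph 6) _ _ (by decide +kernel) (by decide +kernel),
      ?_, ?_, ?_⟩
    · exact (congrArg Nat.cast (nb_fin (SimpleGraph.cycleGraph 6) (lab6 3) 1)).trans
        (by revert b; decide +kernel)
    · exact (congrArg Nat.cast (nb_fin (SimpleGraph.cycleGraph 6) (lab6 3) 2)).trans
        (by revert b; decide +kernel)
    · exact (nb_fin (SimpleGraph.cycleGraph 6) (lab6 3) 3).trans (by decide +kernel)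
  | 2 =>
    cases b with
    | false =>
      refine ⟨lab4 1 2 2 2 3 3, prop_fin (⊤ : SimpleGraph (Fin 4)) _ _ (by decide +kernel)
        (by decide +kernel), ?_, ?_, ?_⟩
      · exact (congrArg Nat.cast (nb_fin (⊤ : SimpleGraph (Fin 4)) (lab4 1 2 2 2 3 3) 1)).trans
          (by decide +kernel)
      · exact (congrArg Nat.cast (nb_fin (⊤ : SimpleGraph (Fin 4)) (lab4 1 2 2 2 3 3) 2)).trans
          (by decide +kernel)
      · exact (nb_fin (⊤ : SimpleGraph (Fin 4)) (lab4 1 2 2 2 3 3) 3).trans (by decide +kernel)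
    | true =>
      refine ⟨lab4 1 1 2 3 1 3, prop_fin (⊤ : SimpleGraph (Fin 4)) _ _ (by decide +kernel)
        (by decide +kernel), ?_, ?_, ?_⟩
      · exact (congrArg Nat.cast (nb_fin (⊤ : SimpleGraph (Fin 4)) (lab4 1 1 2 3 1 3) 1)).trans
          (by decide +kernel)
      · exact (congrArg Nat.cast (nb_fin (⊤ : SimpleGraph (Fin 4)) (lab4 1 1 2 3 1 3) 2)).trans
          (by decide +kernel)
      · exact (nb_fin (⊤ : SimpleGraph (Fin 4)) (lab4 1 1 2 3 1 3) 3).trans (by decide +kernel)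

theorem edges3 : (⊤ : SimpleGraph (Fin 3)).edgeFinset = {s(0, 1), s(0, 2), s(1, 2)} := by
  decide +kernel

theorem edges6 : (SimpleGraph.cycleGraph 6).edgeFinset =
    {s(0, 1), s(1, 2), s(2, 3), s(3, 4), s(4, 5), s(5, 0)} := by
  decide +kernel

theorem edges4 : (⊤ : SimpleGraph (Fin 4)).edgeFinset =
    {s(0, 1), s(0, 2), s(0, 3), s(1, 2), s(1, 3), s(2, 3)} := by
  decide +kernel

theorem nb3 (l : Sym2 (Fin 3) → ℕ) (i : ℕ) : nb (⊤ : SimpleGraph (Fin 3)) l i =
    (if l s(0, 1) = i then 1 else 0) + (if l s(0, 2) = i then 1 else 0) +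
      (if l s(1, 2) = i then 1 else 0) := by
  rw [nb_fin, edges3, Finset.sum_insert (by decide), Finset.sum_insert (by decide),
    Finset.sum_singleton]
  ring

theorem nb6 (l : Sym2 (Fin 6) → ℕ) (i : ℕ) : nb (SimpleGraph.cycleGraph 6) l i =
    ((if l s(0, 1) = i then 1 else 0) + (if l s(2, 3) = i then 1 else 0) +
      (if l s(4, 5) = i then 1 else 0)) + ((if l s(1, 2) = i then 1 else 0) +
      (if l s(3, 4) = i then 1 else 0) + (if l s(5, 0) = i then 1 else 0)) := by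
  rw [nb_fin, edges6, Finset.sum_insert (by decide), Finset.sum_insert (by decide),
    Finset.sum_insert (by decide), Finset.sum_insert (by decide), Finset.sum_insert (by decide),
    Finset.sum_singleton]
  ring

theorem nb4 (l : Sym2 (Fin 4) → ℕ) (i : ℕ) : nb (⊤ : SimpleGraph (Fin 4)) l i =
    (if l s(0, 1) = i then 1 else 0) + (if l s(0, 2) = i then 1 else 0) +
      (if l s(0, 3) = i then 1 else 0) + (if l s(1, 2) = i then 1 else 0) +
      (if l s(1, 3) = i then 1 else 0) + (if l s(2, 3) = i then 1 else 0) := by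
  rw [nb_fin, edges4, Finset.sum_insert (by decide), Finset.sum_insert (by decide),
    Finset.sum_insert (by decide), Finset.sum_insert (by decide), Finset.sum_insert (by decide),
    Finset.sum_singleton]
  ring

theorem toFin (x : ℕ) (h : 1 ≤ x ∧ x ≤ 3) : ∃ a : Fin 3, x = a.val + 1 :=
  ⟨⟨x - 1, by omega⟩, by simp only; omega⟩

theorem neg3 (l : Sym2 (Fin 3) → ℕ) (h : Prop' (⊤ : SimpleGraph (Fin 3)) l 3) (i : ℕ)
    (h1 : 1 ≤ i) (h3 : i ≤ 3) : nb (⊤ : SimpleGraph (Fin 3)) l i = 1 := by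
  have p01 := h.2 0 1 (by decide)
  have p02 := h.2 0 2 (by decide)
  have p12 := h.2 1 2 (by decide)
  obtain ⟨a, ha⟩ := toFin _ (h.1 s(0, 1) (by simp))
  obtain ⟨b, hb⟩ := toFin _ (h.1 s(0, 2) (by simp))
  obtain ⟨c, hc⟩ := toFin _ (h.1 s(1, 2) (by simp))
  have e10 : (s(1, 0) : Sym2 (Fin 3)) = s(0, 1) := Sym2.eq_swap
  have e20 : (s(2, 0) : Sym2 (Fin 3)) = s(0, 2) := Sym2.eq_swap
  have e21 : (s(2, 1) : Sym2 (Fin 3)) = s(1, 2) := Sym2.eq_swap
  rw [vs_fin, vs_fin] at p01 p02 p12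
  simp [Fin.sum_univ_three, e10, e20, e21, ha, hb, hc] at p01 p02 p12
  obtain ⟨d, hd⟩ := toFin i ⟨h1, h3⟩
  rw [nb3, ha, hb, hc, hd]
  have := local3 a b c (fun h => by subst h; omega) (fun h => by subst h; omega)
    (fun h => by subst h; omega) d
  simp only [add_left_inj, ← Fin.ext_iff]
  exact this

theorem neg6 (l : Sym2 (Fin 6) → ℕ) (h : Prop' (SimpleGraph.cycleGraph 6) l 3) (i : ℕ)
    (h1 : 1 ≤ i) (h3 : i ≤ 3) : nb (SimpleGraph.cycleGraph 6) l i = 2 := by
  have p01 := h.2 0 1 (by decide)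
  have p12 := h.2 1 2 (by decide)
  have p23 := h.2 2 3 (by decide)
  have p34 := h.2 3 4 (by decide)
  have p45 := h.2 4 5 (by decide)
  have p50 := h.2 5 0 (by decide)
  obtain ⟨a, ha⟩ := toFin _ (h.1 s(0, 1) (by simp; decide))
  obtain ⟨b, hb⟩ := toFin _ (h.1 s(1, 2) (by simp; decide))
  obtain ⟨c, hc⟩ := toFin _ (h.1 s(2, 3) (by simp; decide))
  obtain ⟨d, hd⟩ := toFin _ (h.1 s(3, 4) (by simp; decide))
  obtain ⟨e, he⟩ := toFin _ (h.1 s(4, 5) (by simp; decide))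
  obtain ⟨f, hf⟩ := toFin _ (h.1 s(5, 0) (by simp; decide))
  have e10 : (s(1, 0) : Sym2 (Fin 6)) = s(0, 1) := Sym2.eq_swap
  have e21 : (s(2, 1) : Sym2 (Fin 6)) = s(1, 2) := Sym2.eq_swap
  have e32 : (s(3, 2) : Sym2 (Fin 6)) = s(2, 3) := Sym2.eq_swap
  have e43 : (s(4, 3) : Sym2 (Fin 6)) = s(3, 4) := Sym2.eq_swap
  have e54 : (s(5, 4) : Sym2 (Fin 6)) = s(4, 5) := Sym2.eq_swap
  have e05 : (s(0, 5) : Sym2 (Fin 6)) = s(5, 0) := Sym2.eq_swap
  rw [vs_fin, vs_fin] at p01 p12 p23 p34 p45 p50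
  simp +decide [Fin.sum_univ_six, e10, e21, e32, e43, e54, e05, ha, hb, hc, hd, he, hf] at p01 p12 p23 p34 p45 p50
  obtain ⟨g, hg⟩ := toFin i ⟨h1, h3⟩
  rw [nb6, ha, hb, hc, hd, he, hf, hg]
  have u1 := local3 a c e (fun h => by subst h; omega) (fun h => by subst h; omega)
    (fun h => by subst h; omega) g
  have u2 := local3 b d f (fun h => by subst h; omega) (fun h => by subst h; omega)
    (fun h => by subst h; omega) g
  simp only [add_left_inj, ← Fin.ext_iff]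
  omega

theorem neg4 (l : Sym2 (Fin 4) → ℕ) (h : Prop' (⊤ : SimpleGraph (Fin 4)) l 3) :
    0 < nb (⊤ : SimpleGraph (Fin 4)) l 1 ∧ 0 < nb (⊤ : SimpleGraph (Fin 4)) l 2 ∧
    0 < nb (⊤ : SimpleGraph (Fin 4)) l 3 ∧
    nb (⊤ : SimpleGraph (Fin 4)) l 1 + nb (⊤ : SimpleGraph (Fin 4)) l 2 +
      nb (⊤ : SimpleGraph (Fin 4)) l 3 = 6 ∧ nb (⊤ : SimpleGraph (Fin 4)) l 2 % 2 = 1 := by
  have p01 := h.2 0 1 (by decide)
  have p02 := h.2 0 2 (by decide)
  have p03 := h.2 0 3 (by decide)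
  have p12 := h.2 1 2 (by decide)
  have p13 := h.2 1 3 (by decide)
  have p23 := h.2 2 3 (by decide)
  obtain ⟨a, ha⟩ := toFin _ (h.1 s(0, 1) (by simp))
  obtain ⟨b, hb⟩ := toFin _ (h.1 s(0, 2) (by simp))
  obtain ⟨c, hc⟩ := toFin _ (h.1 s(0, 3) (by simp))
  obtain ⟨d, hd⟩ := toFin _ (h.1 s(1, 2) (by simp))
  obtain ⟨e, he⟩ := toFin _ (h.1 s(1, 3) (by simp))
  obtain ⟨f, hf⟩ := toFin _ (h.1 s(2, 3) (by simp))
  have e10 : (s(1, 0) : Sym2 (Fin 4)) = s(0, 1) := Sym2.eq_swap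
  have e20 : (s(2, 0) : Sym2 (Fin 4)) = s(0, 2) := Sym2.eq_swap
  have e30 : (s(3, 0) : Sym2 (Fin 4)) = s(0, 3) := Sym2.eq_swap
  have e21 : (s(2, 1) : Sym2 (Fin 4)) = s(1, 2) := Sym2.eq_swap
  have e31 : (s(3, 1) : Sym2 (Fin 4)) = s(1, 3) := Sym2.eq_swap
  have e32 : (s(3, 2) : Sym2 (Fin 4)) = s(2, 3) := Sym2.eq_swap
  rw [vs_fin, vs_fin] at p01 p02 p03 p12 p13 p23
  simp [Fin.sum_univ_four, e10, e20, e30, e21, e31, e32, ha, hb, hc, hd, he, hf]
    at p01 p02 p03 p12 p13 p23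
  have L := local4 a b c d e f (by omega) (by omega) (by omega) (by omega) (by omega) (by omega)
  have T : ∀ x : Fin 3, (if x.val + 1 = 1 then 1 else 0) = (if x = 0 then 1 else 0) ∧
      (if x.val + 1 = 2 then 1 else 0) = (if x = 1 then 1 else 0) ∧
      (if x.val + 1 = 3 then 1 else 0) = (if x = 2 then 1 else 0) ∧
      (if x = 0 then 1 else 0) + (if x = 1 then 1 else 0) + (if x = 2 then 1 else 0) = 1 := by
    decide
  rw [nb4, nb4, nb4, ha, hb, hc, hd, he, hf]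
  have Ta := T a
  have Tb := T b
  have Tc := T c
  have Td := T d
  have Te := T e
  have Tf := T f
  omega

theorem neg (t : Fin 3) (l : Sym2 (Fin (size t)) → ℕ) (h : Prop' (piece t) l 3) :
    0 < nb (piece t) l 1 ∧ 0 < nb (piece t) l 2 ∧ 0 < nb (piece t) l 3 ∧
    nb (piece t) l 1 + nb (piece t) l 2 + nb (piece t) l 3 = 3 * w t ∧
    2 ∣ nb (piece t) l 2 + w t + (if t = 2 then 1 else 0) := by
  match t, l, h with
  | 0, l, h =>
    have h' : Prop' (⊤ : SimpleGraph (Fin 3)) l 3 := h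
    have a1 := neg3 l h' 1 (by omega) (by omega)
    have a2 := neg3 l h' 2 (by omega) (by omega)
    have a3 := neg3 l h' 3 (by omega) (by omega)
    change 0 < nb (⊤ : SimpleGraph (Fin 3)) l 1 ∧ 0 < nb (⊤ : SimpleGraph (Fin 3)) l 2 ∧
      0 < nb (⊤ : SimpleGraph (Fin 3)) l 3 ∧ nb (⊤ : SimpleGraph (Fin 3)) l 1 +
      nb (⊤ : SimpleGraph (Fin 3)) l 2 + nb (⊤ : SimpleGraph (Fin 3)) l 3 = 3 * 1 ∧
      2 ∣ nb (⊤ : SimpleGraph (Fin 3)) l 2 + 1 + (if (0 : Fin 3) = 2 then 1 else 0)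
    rw [a1, a2, a3]
    decide
  | 1, l, h =>
    have h' : Prop' (SimpleGraph.cycleGraph 6) l 3 := h
    have a1 := neg6 l h' 1 (by omega) (by omega)
    have a2 := neg6 l h' 2 (by omega) (by omega)
    have a3 := neg6 l h' 3 (by omega) (by omega)
    change 0 < nb (SimpleGraph.cycleGraph 6) l 1 ∧ 0 < nb (SimpleGraph.cycleGraph 6) l 2 ∧
      0 < nb (SimpleGraph.cycleGraph 6) l 3 ∧ nb (SimpleGraph.cycleGraph 6) l 1 +
      nb (SimpleGraph.cycleGraph 6) l 2 + nb (SimpleGraph.cycleGraph 6) l 3 = 3 * 2 ∧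
      2 ∣ nb (SimpleGraph.cycleGraph 6) l 2 + 2 + (if (1 : Fin 3) = 2 then 1 else 0)
    rw [a1, a2, a3]
    decide
  | 2, l, h =>
    have h' : Prop' (⊤ : SimpleGraph (Fin 4)) l 3 := h
    have a1 := neg4 l h'
    change 0 < nb (⊤ : SimpleGraph (Fin 4)) l 1 ∧ 0 < nb (⊤ : SimpleGraph (Fin 4)) l 2 ∧
      0 < nb (⊤ : SimpleGraph (Fin 4)) l 3 ∧ nb (⊤ : SimpleGraph (Fin 4)) l 1 +
      nb (⊤ : SimpleGraph (Fin 4)) l 2 + nb (⊤ : SimpleGraph (Fin 4)) l 3 = 3 * 2 ∧
      2 ∣ nb (⊤ : SimpleGraph (Fin 4)) l 2 + 2 + (if (2 : Fin 3) = 2 then 1 else 0)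
    rw [if_pos rfl]
    omega

/-! ### the theorem -/

/-- the disjoint union of the triangles, hexagons and complete graphs on four vertices given by `t` -/
def union {ι : Type} (t : ι → Fin 3) : SimpleGraph (Σ i, Fin (size (t i))) :=
  disj fun i => piece (t i)

theorem two_nbrs (t : Fin 3) (x : Fin (size t)) : ∃ y z : Fin (size t), (piece t).Adj x y ∧
    (piece t).Adj x z ∧ y ≠ z := by
  match t, x with
  | 0, x =>
    have : ∀ x : Fin 3, ∃ y z : Fin 3, (⊤ : SimpleGraph (Fin 3)).Adj x y ∧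
      (⊤ : SimpleGraph (Fin 3)).Adj x z ∧ y ≠ z := by decide
    exact this x
  | 1, x =>
    have : ∀ x : Fin 6, ∃ y z : Fin 6, (SimpleGraph.cycleGraph 6).Adj x y ∧
      (SimpleGraph.cycleGraph 6).Adj x z ∧ y ≠ z := by decide
    exact this x
  | 2, x =>
    have : ∀ x : Fin 4, ∃ y z : Fin 4, (⊤ : SimpleGraph (Fin 4)).Adj x y ∧
      (⊤ : SimpleGraph (Fin 4)).Adj x z ∧ y ≠ z := by decide
    exact this x

theorem nice {ι : Type} (t : ι → Fin 3) : IsNice (union t) := by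
  intro c
  constructor
  intro φ
  obtain ⟨v, hv⟩ := c.nonempty_supp
  have key : ∃ u w : (Σ i, Fin (size (t i))), (union t).Adj v u ∧ (union t).Adj v w ∧ u ≠ w := by
    obtain ⟨i, x⟩ := v
    obtain ⟨y, z, h1, h2, h3⟩ := two_nbrs (t i) x
    refine ⟨⟨i, y⟩, ⟨i, z⟩, (adj_mk (fun i => piece (t i)) i x y).2 h1,
      (adj_mk (fun i => piece (t i)) i x z).2 h2, fun h => ?_⟩
    exact h3 (eq_of_heq (Sigma.mk.inj_iff.1 h).2)
  obtain ⟨u, w, hu, hw, huw⟩ := key
  have hu' : u ∈ c.supp := c.mem_supp_of_adj_mem_supp hv hu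
  have hw' : w ∈ c.supp := c.mem_supp_of_adj_mem_supp hv hw
  have d1 : φ ⟨v, hv⟩ ≠ φ ⟨u, hu'⟩ := fun h => hu.ne (congrArg Subtype.val (φ.injective h))
  have d2 : φ ⟨v, hv⟩ ≠ φ ⟨w, hw'⟩ := fun h => hw.ne (congrArg Subtype.val (φ.injective h))
  have d3 : φ ⟨u, hu'⟩ ≠ φ ⟨w, hw'⟩ := fun h => huw (congrArg Subtype.val (φ.injective h))
  have : ∀ x y z : Fin 2, x ≠ y → x ≠ z → y ≠ z → False := by decide
  exact this _ _ _ d1 d2 d3

theorem size_ge (t : Fin 3) : 3 ≤ size t := by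
  match t with
  | 0 => decide
  | 1 => decide
  | 2 => decide

theorem not_K4 {ι : Type} [Fintype ι] [Nonempty ι] (t : ι → Fin 3) (h : Fintype.card ι ≠ 1) :
    IsEmpty (union t ≃g (⊤ : SimpleGraph (Fin 4))) := by
  refine ⟨fun φ => ?_⟩
  have h1 := Fintype.card_congr φ.toEquiv
  simp only [Fintype.card_sigma, Fintype.card_fin] at h1
  have h2 : ∑ _i : ι, 3 ≤ ∑ i : ι, size (t i) := Finset.sum_le_sum fun i _ => size_ge (t i)
  simp only [Finset.sum_const, Finset.card_univ, smul_eq_mul] at h2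
  have h3 := Fintype.card_pos (α := ι)
  omega

theorem prop_mono {m : ℕ} (G : SimpleGraph (Fin m)) (l : Sym2 (Fin m) → ℕ) {k k' : ℕ} (h : k ≤ k')
    (hl : Prop' G l k) : Prop' G l k' :=
  ⟨fun e he => ⟨(hl.1 e he).1, (hl.1 e he).2.trans h⟩, hl.2⟩

theorem nb_pos {V : Type} (G : SimpleGraph V) (l : Sym2 V → ℕ) (c : ℕ) (h : 0 < nb G l c) :
    ∃ e ∈ G.edgeSet, l e = c := by
  unfold nb at h
  have h1 : {e | e ∈ G.edgeSet ∧ l e = c}.Nonempty := by
    by_contra h2
    rw [Set.not_nonempty_iff_eq_empty] at h2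
    rw [h2, Set.ncard_empty] at h
    omega
  obtain ⟨e, he, hc⟩ := h1
  exact ⟨e, he, hc⟩

theorem lower {ι : Type} [Fintype ι] [Nonempty ι] (t : ι → Fin 3) (j : ℕ)
    (h : HasEquitableProperLabelling (union t) j) :
    3 ≤ j ∧ (¬ Even (univ.filter fun i => t i = 2).card → 4 ≤ j) := by
  obtain ⟨l, h1, h2, h3⟩ := h
  have hloc : ∀ i, Prop' (piece (t i)) (loc l i) j := fun i => prop_loc _ l j h1 h2 i
  obtain ⟨i₀⟩ := (inferInstance : Nonempty ι)
  have hj3 : 3 ≤ j := by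
    by_contra hlt
    have hn := neg (t i₀) (loc l i₀) (prop_mono _ _ (by omega) (hloc i₀))
    obtain ⟨e, he, hc⟩ := nb_pos _ _ _ hn.2.2.1
    have := (hloc i₀).1 e he
    omega
  refine ⟨hj3, fun hodd => ?_⟩
  by_contra hlt
  have hj : j = 3 := by omega
  subst hj
  have hn := fun i => neg (t i) (loc l i) (hloc i)
  have hN : ∀ c, nb (union t) l c = ∑ i, nb (piece (t i)) (loc l i) c := fun c => nb_disj _ l c
  have p1 : 0 < nb (union t) l 1 := by
    rw [hN]; exact Finset.sum_pos (fun i _ => (hn i).1) ⟨i₀, Finset.mem_univ _⟩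
  have p2 : 0 < nb (union t) l 2 := by
    rw [hN]; exact Finset.sum_pos (fun i _ => (hn i).2.1) ⟨i₀, Finset.mem_univ _⟩
  have p3 : 0 < nb (union t) l 3 := by
    rw [hN]; exact Finset.sum_pos (fun i _ => (hn i).2.2.1) ⟨i₀, Finset.mem_univ _⟩
  have htot : nb (union t) l 1 + nb (union t) l 2 + nb (union t) l 3 = 3 * ∑ i, w (t i) := by
    rw [hN, hN, hN, ← Finset.sum_add_distrib, ← Finset.sum_add_distrib, Finset.mul_sum]
    exact Finset.sum_congr rfl fun i _ => (hn i).2.2.2.1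
  have hpar : 2 ∣ nb (union t) l 2 + ∑ i, w (t i) + (univ.filter fun i => t i = 2).card := by
    rw [hN, Finset.card_filter, ← Finset.sum_add_distrib, ← Finset.sum_add_distrib]
    exact Finset.dvd_sum fun i _ => (hn i).2.2.2.2
  have e12 := h3 1 2 p1 p2
  have e21 := h3 2 1 p2 p1
  have e13 := h3 1 3 p1 p3
  have e31 := h3 3 1 p3 p1
  have e23 := h3 2 3 p2 p3
  have e32 := h3 3 2 p3 p2
  rw [Nat.not_even_iff] at hodd
  omega

theorem upper4 {ι : Type} [Fintype ι] (t : ι → Fin 3) :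
    HasEquitableProperLabelling (union t) 4 := by
  choose g hg using fun i => pos4 (t i)
  have hp := prop_glue (fun i => piece (t i)) g 4 (fun i => (hg i).1)
  refine ⟨glue g, hp.1, hp.2, ?_⟩
  have hN : ∀ c, nb (union t) (glue g) c = ∑ i, nb (piece (t i)) (g i) c := by
    intro c
    have := nb_disj (fun i => piece (t i)) (glue g) c
    simp only [loc_glue] at this
    exact this
  have n1 : nb (union t) (glue g) 1 = ∑ i, w (t i) := by
    rw [hN]; exact Finset.sum_congr rfl fun i _ => (hg i).2.1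
  have n2 : nb (union t) (glue g) 2 = ∑ i, w (t i) := by
    rw [hN]; exact Finset.sum_congr rfl fun i _ => (hg i).2.2.1
  have n3 : nb (union t) (glue g) 3 = 0 := by
    rw [hN]; exact Finset.sum_eq_zero fun i _ => (hg i).2.2.2.1
  have n4 : nb (union t) (glue g) 4 = ∑ i, w (t i) := by
    rw [hN]; exact Finset.sum_congr rfl fun i _ => (hg i).2.2.2.2
  have hval : ∀ c, 0 < nb (union t) (glue g) c → nb (union t) (glue g) c = ∑ i, w (t i) := by
    intro c hc
    obtain ⟨e, he, rfl⟩ := nb_pos _ _ _ hc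
    have hr := hp.1 e he
    generalize glue g e = c at *
    have : c = 1 ∨ c = 2 ∨ c = 3 ∨ c = 4 := by omega
    rcases this with rfl | rfl | rfl | rfl
    · exact n1
    · exact n2
    · omega
    · exact n4
  intro i j hi hj
  rw [hval i hi, hval j hj]
  omega

theorem upper3 {ι : Type} [Fintype ι] (t : ι → Fin 3)
    (hk : Even (univ.filter fun i => t i = 2).card) :
    HasEquitableProperLabelling (union t) 3 := by
  classical
  obtain ⟨h, hh⟩ := hk
  obtain ⟨S, hS, hSc⟩ := Finset.exists_subset_card_eq (s := univ.filter fun i => t i = 2) (n := h)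
    (by omega)
  choose g hg using fun i => pos3 (t i) (decide (i ∈ S))
  have hp := prop_glue (fun i => piece (t i)) g 3 (fun i => (hg i).1)
  refine ⟨glue g, hp.1, hp.2, ?_⟩
  have hN : ∀ c, nb (union t) (glue g) c = ∑ i, nb (piece (t i)) (g i) c := by
    intro c
    have := nb_disj (fun i => piece (t i)) (glue g) c
    simp only [loc_glue] at this
    exact this
  have hδ : ∑ i : ι, (if t i = 2 then (if decide (i ∈ S) then (1 : ℤ) else -1) else 0) = 0 := by
    have h1 : ∀ i : ι, (if t i = 2 then (if decide (i ∈ S) then (1 : ℤ) else -1) else 0) =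
        (if i ∈ S then 2 else 0) - (if t i = 2 then 1 else 0) := by
      intro i
      by_cases hi : i ∈ S
      · have : t i = 2 := (Finset.mem_filter.1 (hS hi)).2
        simp [hi, this]
      · simp [hi]
        split_ifs <;> simp
    rw [Finset.sum_congr rfl fun i _ => h1 i, Finset.sum_sub_distrib]
    have h2 : ∑ i : ι, (if i ∈ S then (2 : ℤ) else 0) = 2 * h := by
      rw [← Finset.sum_filter]
      simp [hSc]
      ring
    have h3 : ∑ i : ι, (if t i = 2 then (1 : ℤ) else 0) = 2 * h := by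
      rw [← Finset.sum_filter, Finset.sum_const, hh]
      simp
      ring
    rw [h2, h3]
    ring
  have n1 : nb (union t) (glue g) 1 = ∑ i, w (t i) := by
    have : (nb (union t) (glue g) 1 : ℤ) = ∑ i, (w (t i) : ℤ) := by
      rw [hN, Nat.cast_sum, Finset.sum_congr rfl fun i _ => (hg i).2.1, Finset.sum_add_distrib, hδ,
        add_zero]
    exact_mod_cast this
  have n2 : nb (union t) (glue g) 2 = ∑ i, w (t i) := by
    have : (nb (union t) (glue g) 2 : ℤ) = ∑ i, (w (t i) : ℤ) := by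
      rw [hN, Nat.cast_sum, Finset.sum_congr rfl fun i _ => (hg i).2.2.1, Finset.sum_sub_distrib, hδ,
        sub_zero]
    exact_mod_cast this
  have n3 : nb (union t) (glue g) 3 = ∑ i, w (t i) := by
    rw [hN]; exact Finset.sum_congr rfl fun i _ => (hg i).2.2.2
  have hval : ∀ c, 0 < nb (union t) (glue g) c → nb (union t) (glue g) c = ∑ i, w (t i) := by
    intro c hc
    obtain ⟨e, he, rfl⟩ := nb_pos _ _ _ hc
    have hr := hp.1 e he
    generalize glue g e = c at *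
    have : c = 1 ∨ c = 2 ∨ c = 3 := by omega
    rcases this with rfl | rfl | rfl
    · exact n1
    · exact n2
    · exact n3
  intro i j hi hj
  rw [hval i hi, hval j hj]
  omega

/-- **The exact value for the disjoint unions of triangles, hexagons and complete graphs on four
vertices.** Let `G` be the disjoint union of finitely many (at least one) graphs, each of them a triangle
(`t i = 0`), a cycle of length six (`t i = 1`) or a `K₄` (`t i = 2`). Then `G` is nice, `G` is not `K₄` if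
there are at least two components, and the least `j` such that `G` has an equitable proper `j`-labelling is
`3` if the number of the components `K₄` is even and `4` if it is odd. -/
theorem result {ι : Type} [Fintype ι] [Nonempty ι] (t : ι → Fin 3) :
    IsNice (union t) ∧
    (Fintype.card ι ≠ 1 → IsEmpty (union t ≃g (⊤ : SimpleGraph (Fin 4)))) ∧
    IsLeast {j : ℕ | HasEquitableProperLabelling (union t) j}
      (if Even (univ.filter fun i => t i = 2).card then 3 else 4) := by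
  refine ⟨nice t, not_K4 t, ?_, ?_⟩
  · split_ifs with h
    · exact upper3 t h
    · exact upper4 t
  · intro j hj
    have := lower t j hj
    split_ifs with h
    · exact this.1
    · exact this.2 h

end Pool.Agent.Results.MP_3faef8_co.ExactValue
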